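import Mathlib

set_option autoImplicit false
set_option linter.style.haveILetI false

namespace Pool.Agent.W345.VOJ

open Polynomial

variable {Ω : Type} [Field Ω]

/-- `h` has a bounded denominator and polynomial growth on the algebraic integers, with explicit
constants -/
def BddW (h : Ω → Ω) (M : ℕ) (C : ℝ) (D : ℕ) : Prop :=
  ∀ ξ : Ω, IsIntegral ℤ ξ →
    IsIntegral ℤ ((M : Ω) * h ξ) ∧
      ∀ (σ : Ω →+* ℂ) (R : ℝ), 1 ≤ R → ‖σ ξ‖ ≤ R → ‖σ (h ξ)‖ ≤ C * R ^ D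

/-- `h` has a bounded denominator and polynomial growth on the algebraic integers -/
def Bdd (h : Ω → Ω) : Prop :=
  ∃ (M : ℕ) (C : ℝ) (D : ℕ), 0 < M ∧ 1 ≤ C ∧ BddW h M C D

theorem BddW.mono {h : Ω → Ω} {M M' : ℕ} {C C' : ℝ} {D D' : ℕ} (hb : BddW h M C D)
    (hM : M ∣ M') (hC0 : 0 ≤ C) (hC : C ≤ C') (hD : D ≤ D') : BddW h M' C' D' := by
  intro ξ hξ
  obtain ⟨h1, h2⟩ := hb ξ hξ
  refine ⟨?_, fun σ R hR hσ => (h2 σ R hR hσ).trans ?_⟩
  · obtain ⟨c, rfl⟩ := hM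
    have : ((M * c : ℕ) : Ω) * h ξ = (c : Ω) * ((M : Ω) * h ξ) := by push_cast; ring
    rw [this]
    exact (isIntegral_natCast c).mul h1
  · have : R ^ D ≤ R ^ D' := pow_le_pow_right₀ hR hD
    have h0 : 0 ≤ R ^ D := by positivity
    nlinarith [mul_le_mul hC this h0 (hC0.trans hC)]

theorem Bdd.zero : Bdd (fun _ : Ω => (0 : Ω)) := by
  refine ⟨1, 1, 0, one_pos, le_rfl, fun ξ _ => ⟨?_, fun σ R hR _ => ?_⟩⟩
  · simpa using isIntegral_zero
  · simp

theorem Bdd.ident : Bdd (fun ξ : Ω => ξ) := by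
  refine ⟨1, 1, 1, one_pos, le_rfl, fun ξ hξ => ⟨?_, fun σ R hR hσ => ?_⟩⟩
  · simpa using hξ
  · simpa using hσ

theorem Bdd.add {g h : Ω → Ω} (hg : Bdd g) (hh : Bdd h) : Bdd (fun ξ => g ξ + h ξ) := by
  obtain ⟨M, C, D, hM, hC, hb⟩ := hg
  obtain ⟨M', C', D', hM', hC', hb'⟩ := hh
  have e1 : BddW g (M * M') C (D + D') :=
    hb.mono (Dvd.intro _ rfl) (by linarith) le_rfl (Nat.le_add_right _ _)
  have e2 : BddW h (M * M') C' (D + D') :=
    hb'.mono (Dvd.intro_left _ rfl) (by linarith) le_rfl (Nat.le_add_left _ _)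
  refine ⟨M * M', C + C', D + D', Nat.mul_pos hM hM', by linarith, fun ξ hξ => ?_⟩
  obtain ⟨a1, a2⟩ := e1 ξ hξ
  obtain ⟨b1, b2⟩ := e2 ξ hξ
  refine ⟨?_, fun σ R hR hσ => ?_⟩
  · rw [mul_add]; exact a1.add b1
  · rw [map_add, add_mul]
    exact (norm_add_le _ _).trans (add_le_add (a2 σ R hR hσ) (b2 σ R hR hσ))

theorem Bdd.mul {g h : Ω → Ω} (hg : Bdd g) (hh : Bdd h) : Bdd (fun ξ => g ξ * h ξ) := by
  obtain ⟨M, C, D, hM, hC, hb⟩ := hg
  obtain ⟨M', C', D', hM', hC', hb'⟩ := hh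
  refine ⟨M * M', C * C', D + D', Nat.mul_pos hM hM', by nlinarith, fun ξ hξ => ?_⟩
  obtain ⟨a1, a2⟩ := hb ξ hξ
  obtain ⟨b1, b2⟩ := hb' ξ hξ
  refine ⟨?_, fun σ R hR hσ => ?_⟩
  · have : ((M * M' : ℕ) : Ω) * (g ξ * h ξ) = ((M : Ω) * g ξ) * ((M' : Ω) * h ξ) := by
      push_cast; ring
    rw [this]; exact a1.mul b1
  · rw [map_mul, norm_mul]
    have h0 : 0 ≤ R ^ D := by positivity
    calc ‖σ (g ξ)‖ * ‖σ (h ξ)‖ ≤ (C * R ^ D) * (C' * R ^ D') :=
          mul_le_mul (a2 σ R hR hσ) (b2 σ R hR hσ) (norm_nonneg _) (by positivity)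
      _ = C * C' * R ^ (D + D') := by rw [pow_add]; ring

/-- uniform constants for finitely many functions -/
theorem Bdd.uniform {c : ℕ → Ω → Ω} (hc : ∀ i, Bdd (c i)) (t : ℕ) :
    ∃ (M : ℕ) (C : ℝ) (D : ℕ), 0 < M ∧ 1 ≤ C ∧ ∀ i < t, BddW (c i) M C D := by
  induction t with
  | zero => exact ⟨1, 1, 0, one_pos, le_rfl, fun i hi => absurd hi (Nat.not_lt_zero _)⟩
  | succ t ih =>
    obtain ⟨M, C, D, hM, hC, hb⟩ := ih
    obtain ⟨M', C', D', hM', hC', hb'⟩ := hc t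
    refine ⟨M * M', C + C', D + D', Nat.mul_pos hM hM', by linarith, fun i hi => ?_⟩
    rcases Nat.lt_succ_iff_lt_or_eq.1 hi with h | h
    · exact (hb i h).mono (Dvd.intro _ rfl) (by linarith) (by linarith) (Nat.le_add_right _ _)
    · subst h
      exact hb'.mono (Dvd.intro_left _ rfl) (by linarith) (by linarith) (Nat.le_add_left _ _)

theorem Bdd.root {R : Type} [CommRing R] (φ : Ω → (R →+* Ω)) (hφ : ∀ c : R, Bdd (fun ξ => φ ξ c))
    (p : R[X]) (hp : p.Monic) (y : Ω → Ω) (hy : ∀ ξ, eval₂ (φ ξ) (y ξ) p = 0) : Bdd y := by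
  obtain ⟨M, C, D, hM, hC, hb⟩ := Bdd.uniform (c := fun i ξ => φ ξ (p.coeff i))
    (fun i => hφ _) p.natDegree
  refine ⟨M, C + 1, D, hM, by linarith, fun ξ hξ => ?_⟩
  have hpm : (p.map (φ ξ)).Monic := hp.map _
  have hdeg : (p.map (φ ξ)).natDegree = p.natDegree := hp.natDegree_map _
  have hev : (p.map (φ ξ)).eval (y ξ) = 0 := by rw [eval_map]; exact hy ξ
  have ht : p.natDegree ≠ 0 := by
    intro h0
    rw [hp.natDegree_eq_zero.1 h0] at hev
    simp at hev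
  refine ⟨?_, fun σ T hT hσ => ?_⟩
  · have hroot : eval ((M : Ω) * y ξ) ((p.map (φ ξ)).scaleRoots (M : Ω)) = 0 := by
      have := scaleRoots_eval₂_eq_zero (RingHom.id Ω) (p := p.map (φ ξ)) (r := y ξ) (s := (M : Ω))
        (by rw [eval₂_id]; exact hev)
      rwa [eval₂_id] at this
    refine IsIntegral.of_aeval_monic_of_isIntegral_coeff
      (p := (p.map (φ ξ)).scaleRoots (M : Ω)) ((monic_scaleRoots_iff _).2 hpm) ?_ ?_ ?_
    · rw [natDegree_scaleRoots, hdeg]; exact ht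
    · rw [hroot]; exact isIntegral_zero
    · intro i
      rw [coeff_scaleRoots, hdeg]
      rcases lt_trichotomy i p.natDegree with h | h | h
      · have h1 := (hb i h ξ hξ).1
        have h2 : (p.map (φ ξ)).coeff i * (M : Ω) ^ (p.natDegree - i) =
            ((M : Ω) * φ ξ (p.coeff i)) * (M : Ω) ^ (p.natDegree - i - 1) := by
          have h3 : p.natDegree - i = (p.natDegree - i - 1) + 1 := by omega
          rw [coeff_map]
          conv_lhs => rw [h3, pow_succ]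
          ring
        rw [h2]
        exact h1.mul ((isIntegral_natCast M).pow _)
      · have h2 : (p.map (φ ξ)).coeff i = 1 := by
          have := hpm.coeff_natDegree
          rwa [hdeg, ← h] at this
        rw [h2, one_mul]
        exact (isIntegral_natCast M).pow _
      · have h2 : (p.map (φ ξ)).coeff i = 0 := coeff_eq_zero_of_natDegree_lt (by rw [hdeg]; exact h)
        rw [h2, zero_mul]
        exact isIntegral_zero
  · have hq : ((p.map (φ ξ)).map σ).Monic := hpm.map _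
    have hqr : ((p.map (φ ξ)).map σ).IsRoot (σ (y ξ)) := by
      rw [IsRoot.def, eval_map, eval₂_hom, hev, map_zero]
    have h1 := IsRoot.norm_lt_cauchyBound hq.ne_zero hqr
    have h2 : ((cauchyBound ((p.map (φ ξ)).map σ) : NNReal) : ℝ) ≤ C * T ^ D + 1 := by
      rw [cauchyBound, hq.leadingCoeff]
      simp only [nnnorm_one, div_one, NNReal.coe_add, NNReal.coe_one]
      gcongr
      have h3 : (0 : ℝ) ≤ C * T ^ D := by positivity
      have : (Finset.sup (Finset.range ((p.map (φ ξ)).map σ).natDegree)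
          (fun i => ‖((p.map (φ ξ)).map σ).coeff i‖₊)) ≤ Real.toNNReal (C * T ^ D) := by
        refine Finset.sup_le fun i hi => ?_
        rw [Finset.mem_range, hpm.natDegree_map, hdeg] at hi
        have := (hb i hi ξ hξ).2 σ T hT hσ
        rw [← NNReal.coe_le_coe, Real.coe_toNNReal _ h3]
        simpa using this
      have h5 := NNReal.coe_le_coe.2 this
      rwa [Real.coe_toNNReal _ h3] at h5
    have h3 : ‖σ (y ξ)‖ < C * T ^ D + 1 := lt_of_lt_of_le (by exact_mod_cast h1) h2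
    have h4 : (1 : ℝ) ≤ T ^ D := one_le_pow₀ hT
    nlinarith

end Pool.Agent.W345.VOJ
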