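import Mathlib

set_option autoImplicit false

namespace Pool.Agent.W345.VOJ

/-- A ring homomorphism into an algebraically closed field extends to any integral extension. -/
theorem exists_extension {R A Ω : Type} [CommRing R] [CommRing A] [Algebra R A]
    [Algebra.IsIntegral R A]
    (hinj : Function.Injective (algebraMap R A)) [Field Ω] [IsAlgClosed Ω] (φ : R →+* Ω) :
    ∃ ψ : A →+* Ω, ψ.comp (algebraMap R A) = φ := by
  have hPp : (RingHom.ker φ).IsPrime := RingHom.ker_isPrime φ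
  obtain ⟨Q, -, hQ, hQP⟩ := Ideal.exists_ideal_over_prime_of_isIntegral (RingHom.ker φ)
    (⊥ : Ideal A) (by
      rw [← RingHom.ker_eq_comap_bot, (RingHom.injective_iff_ker_eq_bot _).1 hinj]; exact bot_le)
  letI : Algebra (R ⧸ RingHom.ker φ) Ω :=
    (Ideal.Quotient.lift (RingHom.ker φ) φ (fun a ha => ha)).toAlgebra
  letI : Algebra (R ⧸ RingHom.ker φ) (A ⧸ Q) := Ideal.Quotient.algebraQuotientOfLEComap hQP.ge
  haveI : Algebra.IsIntegral (R ⧸ RingHom.ker φ) (A ⧸ Q) := by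
    refine ⟨fun x => ?_⟩
    obtain ⟨a, rfl⟩ := Ideal.Quotient.mk_surjective x
    obtain ⟨p, hp, hpa⟩ := Algebra.IsIntegral.isIntegral (R := R) a
    refine ⟨p.map (Ideal.Quotient.mk _), hp.map _, ?_⟩
    rw [Polynomial.eval₂_map]
    have : (algebraMap (R ⧸ RingHom.ker φ) (A ⧸ Q)).comp (Ideal.Quotient.mk (RingHom.ker φ)) =
        (Ideal.Quotient.mk Q).comp (algebraMap R A) := rfl
    rw [this, ← Polynomial.hom_eval₂, hpa, map_zero]
  haveI : Algebra.IsAlgebraic (R ⧸ RingHom.ker φ) (A ⧸ Q) := inferInstance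
  have hi1 : Function.Injective (algebraMap (R ⧸ RingHom.ker φ) Ω) :=
    RingHom.kerLift_injective φ
  have hi2 : Function.Injective (algebraMap (R ⧸ RingHom.ker φ) (A ⧸ Q)) :=
    Ideal.quotientMap_injective' hQP.le
  haveI : Module.IsTorsionFree (R ⧸ RingHom.ker φ) Ω :=
    (Module.isTorsionFree_iff_algebraMap_injective).2 hi1
  haveI : Module.IsTorsionFree (R ⧸ RingHom.ker φ) (A ⧸ Q) :=
    (Module.isTorsionFree_iff_algebraMap_injective).2 hi2
  let θ : (A ⧸ Q) →ₐ[R ⧸ RingHom.ker φ] Ω := IsAlgClosed.lift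
  refine ⟨θ.toRingHom.comp (Ideal.Quotient.mk Q), ?_⟩
  ext r
  have h : θ (algebraMap (R ⧸ RingHom.ker φ) (A ⧸ Q) (Ideal.Quotient.mk _ r)) =
    algebraMap (R ⧸ RingHom.ker φ) Ω (Ideal.Quotient.mk _ r) := θ.commutes _
  exact h

end Pool.Agent.W345.VOJ
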