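import Mathlib
import Pool.Agent.W229.V.Stmts
import Pool.Agent.W345.VOJ.Ext
import Pool.Agent.W345.VOJ.Bdd

set_option autoImplicit false
set_option linter.style.haveILetI false

namespace Pool.Agent.W345.VOJ

open Pool.Agent.W229.V Module Height
open scoped LinearAlgebra.Projectivization

variable {k : Type} [Field k] [NumberField k]

theorem Bdd.const (a : k) :
    Bdd (fun _ : AlgebraicClosure k => algebraMap k (AlgebraicClosure k) a) := by
  have h0 : IsAlgebraic ℚ a := Algebra.IsAlgebraic.isAlgebraic a
  have h1 : IsAlgebraic ℤ a := (IsFractionRing.isAlgebraic_iff ℤ ℚ k).2 h0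
  obtain ⟨y, hy, hint⟩ := h1.exists_integral_multiple
  have hpos : 0 ≤ ∑ τ : k →+* ℂ, ‖τ a‖ := Finset.sum_nonneg fun _ _ => norm_nonneg _
  refine ⟨y.natAbs, 1 + ∑ τ : k →+* ℂ, ‖τ a‖, 0, Int.natAbs_pos.2 hy, by linarith,
    fun ξ _ => ⟨?_, fun σ R hR _ => ?_⟩⟩
  · have h2 : IsIntegral ℤ (algebraMap k (AlgebraicClosure k) (y • a)) := hint.map
      (IsScalarTower.toAlgHom ℤ k (AlgebraicClosure k))
    have h3 : algebraMap k (AlgebraicClosure k) (y • a) =
        (y : AlgebraicClosure k) * algebraMap k (AlgebraicClosure k) a := by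
      rw [zsmul_eq_mul, map_mul, map_intCast]
    rw [h3] at h2
    rcases Int.natAbs_eq y with h | h
    · have : ((y.natAbs : ℕ) : AlgebraicClosure k) = (y : AlgebraicClosure k) := by
        have := congrArg (Int.cast : ℤ → AlgebraicClosure k) h
        rw [Int.cast_natCast] at this
        exact this.symm
      rw [this]; exact h2
    · have : ((y.natAbs : ℕ) : AlgebraicClosure k) = -(y : AlgebraicClosure k) := by
        have := congrArg (Int.cast : ℤ → AlgebraicClosure k) h
        rw [Int.cast_neg, Int.cast_natCast] at this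
        rw [this, neg_neg]
      rw [this, neg_mul]; exact h2.neg
  · have h2 : ‖(σ.comp (algebraMap k (AlgebraicClosure k))) a‖ ≤ ∑ τ : k →+* ℂ, ‖τ a‖ :=
      Finset.single_le_sum (f := fun τ : k →+* ℂ => ‖τ a‖) (fun _ _ => norm_nonneg _)
        (Finset.mem_univ (σ.comp (algebraMap k (AlgebraicClosure k))))
    have h3 : σ (algebraMap k (AlgebraicClosure k) a) =
      (σ.comp (algebraMap k (AlgebraicClosure k))) a := rfl
    rw [h3, pow_zero, mul_one]
    linarith

theorem Bdd.poly {s : ℕ} (v : AlgebraicClosure k → Fin s → AlgebraicClosure k)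
    (hv : ∀ i, Bdd (fun ξ => v ξ i)) (c : MvPolynomial (Fin s) k) :
    Bdd (fun ξ => MvPolynomial.aeval (v ξ) c) := by
  induction c using MvPolynomial.induction_on with
  | C a => simpa using Bdd.const a
  | add p q hp hq => simpa using hp.add hq
  | mul_X p i hp => simpa using hp.mul (hv i)

theorem finrank_adjoin_le {F E : Type} [Field F] [Field E] [Algebra F E] {n : ℕ} (y : Fin n → E)
    (t : Fin n → ℕ)
    (h : ∀ i, ∃ p : Polynomial F, p.Monic ∧ p.natDegree = t i ∧ Polynomial.aeval (y i) p = 0)
    (s : Finset (Fin n)) :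
    FiniteDimensional F (IntermediateField.adjoin F (y '' s)) ∧
      finrank F (IntermediateField.adjoin F (y '' s)) ≤ ∏ i ∈ s, t i := by
  classical
  induction s using Finset.induction_on with
  | empty =>
    have e : IntermediateField.adjoin F (y '' ↑(∅ : Finset (Fin n))) = ⊥ := by
      rw [Finset.coe_empty, Set.image_empty, IntermediateField.adjoin_empty]
    rw [e, Finset.prod_empty, IntermediateField.finrank_bot]
    exact ⟨inferInstance, le_rfl⟩
  | insert i s hi ih =>
    obtain ⟨ih1, ih2⟩ := ih
    obtain ⟨p, hp, hpd, hpy⟩ := h i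
    have hint : IsIntegral F (y i) := ⟨p, hp, hpy⟩
    have e : IntermediateField.adjoin F (y '' ↑(insert i s)) =
        IntermediateField.adjoin F {y i} ⊔ IntermediateField.adjoin F (y '' ↑s) := by
      rw [Finset.coe_insert, Set.image_insert_eq, Set.insert_eq, IntermediateField.adjoin_union]
    haveI : FiniteDimensional F (IntermediateField.adjoin F {y i}) :=
      IntermediateField.adjoin.finiteDimensional hint
    rw [e]
    refine ⟨IntermediateField.finiteDimensional_sup _ _, ?_⟩
    refine (IntermediateField.finrank_sup_le _ _).trans ?_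
    rw [Finset.prod_insert hi]
    refine Nat.mul_le_mul ?_ ih2
    rw [IntermediateField.adjoin.finrank hint, ← hpd]
    exact Polynomial.natDegree_le_natDegree (minpoly.min F (y i) hp hpy)

/-- the degree of a point whose coordinates are roots of monic polynomials over `k(ξ)` -/
theorem deg_le {N : ℕ} (ξ : AlgebraicClosure k) (y : Fin (N + 1) → AlgebraicClosure k) (hy : y ≠ 0)
    (t : Fin (N + 1) → ℕ)
    (h : ∀ i, ∃ p : Polynomial (IntermediateField.adjoin k {ξ}), p.Monic ∧ p.natDegree = t i ∧
      Polynomial.aeval (y i) p = 0) :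
    deg (Projectivization.mk (AlgebraicClosure k) y hy) ≤
      (∏ i, t i) * (minpoly ℚ ξ).natDegree := by
  set P := Projectivization.mk (AlgebraicClosure k) y hy with hP
  obtain ⟨h1, h2⟩ := finrank_adjoin_le y t h Finset.univ
  set K2 := IntermediateField.adjoin (IntermediateField.adjoin k {ξ}) (y '' ↑(Finset.univ : Finset (Fin (N + 1)))) with hK2
  have hmem : ∀ i, y i ∈ K2 := fun i => IntermediateField.subset_adjoin _ _ ⟨i, by simp, rfl⟩
  have hle : ptField P ≤ K2.restrictScalars k := by
    unfold ptField
    rw [IntermediateField.adjoin_le_iff]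
    rintro _ ⟨⟨i, j⟩, rfl⟩
    obtain ⟨a, ha⟩ := Projectivization.exists_smul_eq_mk_rep (AlgebraicClosure k) y hy
    change P.rep i / P.rep j ∈ K2
    rw [hP, ← ha]
    have : (a • y) i / (a • y) j = y i / y j := by
      simp only [Pi.smul_apply, Units.smul_def, smul_eq_mul]
      rw [mul_div_mul_left _ _ a.ne_zero]
    rw [this]
    exact div_mem (hmem i) (hmem j)
  have hξ : IsIntegral k ξ := Algebra.IsIntegral.isIntegral ξ
  haveI : FiniteDimensional k (IntermediateField.adjoin k {ξ}) :=
    IntermediateField.adjoin.finiteDimensional hξ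
  haveI : FiniteDimensional k (K2.restrictScalars k) := by
    change FiniteDimensional k K2
    exact FiniteDimensional.trans k (IntermediateField.adjoin k {ξ}) K2
  have h3 : deg P ≤ finrank k (K2.restrictScalars k) := by
    unfold deg
    exact LinearMap.finrank_le_finrank_of_injective
      (f := (IntermediateField.inclusion hle).toLinearMap) (IntermediateField.inclusion_injective hle)
  have h4 : finrank k (K2.restrictScalars k) =
      finrank k (IntermediateField.adjoin k {ξ}) *
        finrank (IntermediateField.adjoin k {ξ}) K2 :=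
    (Module.finrank_mul_finrank k (IntermediateField.adjoin k {ξ}) K2).symm
  have h5 : finrank k (IntermediateField.adjoin k {ξ}) ≤ (minpoly ℚ ξ).natDegree := by
    rw [IntermediateField.adjoin.finrank hξ]
    have hξQ : IsIntegral ℚ ξ := by
      haveI : Algebra.IsAlgebraic ℚ k := inferInstance
      haveI : Algebra.IsAlgebraic ℚ (AlgebraicClosure k) := Algebra.IsAlgebraic.trans ℚ k _
      exact Algebra.IsIntegral.isIntegral ξ
    have hd := minpoly.dvd_map_of_isScalarTower ℚ k ξ
    have := Polynomial.natDegree_le_of_dvd hd ((minpoly.monic hξQ).map _).ne_zero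
    rwa [Polynomial.natDegree_map] at this
  calc deg P ≤ _ := h3
    _ = _ := h4
    _ ≤ (minpoly ℚ ξ).natDegree * ∏ i, t i := Nat.mul_le_mul h5 h2
    _ = _ := mul_comm _ _

end Pool.Agent.W345.VOJ
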