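import Mathlib
import Pool.Agent.W229.V.Stmts
import Pool.Agent.W345.VOJ.Ext
import Pool.Agent.W345.VOJ.Bdd
import Pool.Agent.W345.VOJ.Prep

set_option autoImplicit false
set_option linter.style.haveILetI false

namespace Pool.Agent.W345.VOJ

open Pool.Agent.W229.V Module Height
open scoped LinearAlgebra.Projectivization

theorem aeval_smul_homog {n e : ℕ} {K E : Type} [Field K] [Field E] [Algebra K E]
    (F : MvPolynomial (Fin n) K) (hF : F.IsHomogeneous e) (c : E) (x : Fin n → E) :
    MvPolynomial.aeval (c • x) F = c ^ e * MvPolynomial.aeval x F := by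
  rw [MvPolynomial.aeval_def, MvPolynomial.aeval_def, MvPolynomial.eval₂_eq',
    MvPolynomial.eval₂_eq', Finset.mul_sum]
  refine Finset.sum_congr rfl fun d hd => ?_
  have hd' := hF (MvPolynomial.mem_support_iff.1 hd)
  have h1 : ∑ i, d i = e := by
    rw [← hd', Finsupp.weight_apply, Finsupp.sum_fintype _ _ (by simp)]
    simp
  have h2 : ∏ i, (c • x) i ^ d i = c ^ e * ∏ i, x i ^ d i := by
    rw [← h1, ← Finset.prod_pow_eq_pow_sum, ← Finset.prod_mul_distrib]
    exact Finset.prod_congr rfl fun i _ => by rw [Pi.smul_apply, smul_eq_mul, mul_pow]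
  rw [h2]; ring

/-- points of an algebraic set in the chart `x j0 ≠ 0`, as homomorphisms of its coordinate ring -/
theorem exists_hom {k : Type} [Field k] [NumberField k] {N : ℕ}
    (S : Set (MvPolynomial (Fin (N + 1)) k)) (hS : ∀ F ∈ S, ∃ e, F.IsHomogeneous e)
    (j0 : Fin (N + 1)) (P : ℙ (AlgebraicClosure k) (Fin (N + 1) → AlgebraicClosure k))
    (hP : P ∈ algSet S) (hj : P.rep j0 ≠ 0) :
    ∃ ψ : (MvPolynomial (Fin (N + 1)) k ⧸
        (Ideal.span (S ∪ {MvPolynomial.X j0 - 1}) : Ideal (MvPolynomial (Fin (N + 1)) k))) →ₐ[k]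
        AlgebraicClosure k,
      ∀ i, ψ (Ideal.Quotient.mk _ (MvPolynomial.X i)) = P.rep i / P.rep j0 := by
  set x : Fin (N + 1) → AlgebraicClosure k := (P.rep j0)⁻¹ • P.rep with hx
  have hker : ∀ F ∈ (Ideal.span (S ∪ {MvPolynomial.X j0 - 1}) : Ideal (MvPolynomial (Fin (N + 1)) k)),
      MvPolynomial.aeval x F = 0 := by
    intro F hF
    have hle : (Ideal.span (S ∪ {MvPolynomial.X j0 - 1}) : Ideal (MvPolynomial (Fin (N + 1)) k)) ≤
        RingHom.ker (MvPolynomial.aeval x : MvPolynomial (Fin (N + 1)) k →ₐ[k] AlgebraicClosure k) := by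
      rw [Ideal.span_le]
      rintro G (hG | hG)
      · obtain ⟨e, he⟩ := hS G hG
        change MvPolynomial.aeval x G = 0
        rw [hx, aeval_smul_homog G he, hP G hG, mul_zero]
      · rw [Set.mem_singleton_iff] at hG
        change MvPolynomial.aeval x G = 0
        rw [hG]
        simp [hx, hj]
    exact hle hF
  refine ⟨Ideal.Quotient.liftₐ _ (MvPolynomial.aeval x) hker, fun i => ?_⟩
  change MvPolynomial.aeval x (MvPolynomial.X i) = _
  rw [MvPolynomial.aeval_X, hx, Pi.smul_apply, smul_eq_mul]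
  field_simp

theorem taskC2 (h1 : TaskC1) : TaskC2 := by
  intro k _ _ N S hS hinf
  classical
  -- a coordinate that does not vanish at infinitely many points
  obtain ⟨j0, hj0⟩ : ∃ j0 : Fin (N + 1), {P | P ∈ algSet S ∧ P.rep j0 ≠ 0}.Infinite := by
    by_contra hcon
    push Not at hcon
    apply hinf
    refine (Set.finite_iUnion (fun j => hcon j)).subset ?_
    intro P hP
    obtain ⟨j, hj⟩ := Function.ne_iff.1 P.rep_nonzero
    exact Set.mem_iUnion.2 ⟨j, hP, hj⟩
  set I : Ideal (MvPolynomial (Fin (N + 1)) k) := Ideal.span (S ∪ {MvPolynomial.X j0 - 1}) with hI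
  -- the coordinate ring is nontrivial
  haveI hnt : Nontrivial (MvPolynomial (Fin (N + 1)) k ⧸ I) := by
    obtain ⟨P, hP, hj⟩ := hj0.nonempty
    obtain ⟨ψ, -⟩ := exists_hom S hS j0 P hP hj
    exact ψ.toRingHom.domain_nontrivial
  obtain ⟨s, g, ginj, gint⟩ := exists_integral_inj_algHom_of_fg k (MvPolynomial (Fin (N + 1)) k ⧸ I)
  have hpoly : ∀ i : Fin (N + 1), ∃ p : Polynomial (MvPolynomial (Fin s) k), p.Monic ∧
      Polynomial.eval₂ g.toRingHom (Ideal.Quotient.mk I (MvPolynomial.X i)) p = 0 :=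
    fun i => gint _
  choose p hpm hp0 using hpoly
  have hs : 0 < s := by
    rcases Nat.eq_zero_or_pos s with h | h
    · exfalso
      subst h
      apply hj0
      -- finitely many points
      let θ : MvPolynomial (Fin 0) k →ₐ[k] AlgebraicClosure k := MvPolynomial.aeval (fun i => i.elim0)
      have hfin : (Set.pi Set.univ (fun i : Fin (N + 1) =>
          {z : AlgebraicClosure k | Polynomial.eval₂ θ.toRingHom z (p i) = 0})).Finite := by
        refine Set.Finite.pi fun i => ?_
        have h2 : ((p i).map θ.toRingHom) ≠ 0 := ((hpm i).map _).ne_zero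
        refine (((p i).map θ.toRingHom).roots.toFinset.finite_toSet).subset ?_
        intro z hz
        simp only [Set.mem_ofPred_eq] at hz
        rw [Finset.mem_coe, Multiset.mem_toFinset, Polynomial.mem_roots h2, Polynomial.IsRoot.def,
          Polynomial.eval_map]
        exact hz
      refine Set.Finite.of_finite_image (f := fun P : ℙ (AlgebraicClosure k)
        (Fin (N + 1) → AlgebraicClosure k) => fun i => P.rep i / P.rep j0) (hfin.subset ?_) ?_
      · rintro _ ⟨P, ⟨hP, hj⟩, rfl⟩
        obtain ⟨ψ, hψ⟩ := exists_hom S hS j0 P hP hj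
        intro i _
        simp only [Set.mem_ofPred_eq]
        rw [← hψ i]
        have h3 : θ.toRingHom = ψ.toRingHom.comp g.toRingHom := by
          have : θ = ψ.comp g := MvPolynomial.algHom_ext (fun i => i.elim0)
          rw [this]; rfl
        rw [h3]
        have := Polynomial.hom_eval₂ (p i) g.toRingHom ψ.toRingHom
          (Ideal.Quotient.mk I (MvPolynomial.X i))
        rw [hp0 i, map_zero] at this
        exact this.symm
      · rintro P ⟨hP, hj⟩ Q ⟨hQ, hj'⟩ hPQ
        rw [← P.mk_rep, ← Q.mk_rep, Projectivization.mk_eq_mk_iff']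
        refine ⟨P.rep j0 / Q.rep j0, ?_⟩
        ext i
        have : P.rep i / P.rep j0 = Q.rep i / Q.rep j0 := congrFun hPQ i
        rw [Pi.smul_apply, smul_eq_mul]
        field_simp at this ⊢
        linear_combination -this
    · exact h
  -- the homomorphisms
  letI : Algebra (MvPolynomial (Fin s) k) (MvPolynomial (Fin (N + 1)) k ⧸ I) := g.toRingHom.toAlgebra
  haveI : Algebra.IsIntegral (MvPolynomial (Fin s) k) (MvPolynomial (Fin (N + 1)) k ⧸ I) :=
    ⟨fun a => gint a⟩
  let φ : AlgebraicClosure k → (MvPolynomial (Fin s) k →ₐ[k] AlgebraicClosure k) :=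
    fun ξ => MvPolynomial.aeval (fun _ => ξ)
  have hext : ∀ ξ : AlgebraicClosure k, ∃ ψ : (MvPolynomial (Fin (N + 1)) k ⧸ I) →ₐ[k]
      AlgebraicClosure k, ψ.toRingHom.comp g.toRingHom = (φ ξ).toRingHom := by
    intro ξ
    obtain ⟨ψ, hψ⟩ := exists_extension (R := MvPolynomial (Fin s) k)
      (A := MvPolynomial (Fin (N + 1)) k ⧸ I) ginj (φ ξ).toRingHom
    refine ⟨{ ψ with commutes' := fun c => ?_ }, ?_⟩
    · have h3 : algebraMap k (MvPolynomial (Fin (N + 1)) k ⧸ I) c =
          g (algebraMap k _ c) := (g.commutes c).symm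
      change ψ (algebraMap k (MvPolynomial (Fin (N + 1)) k ⧸ I) c) = _
      rw [h3]
      have h4 := RingHom.congr_fun hψ (algebraMap k _ c)
      exact h4.trans ((φ ξ).commutes c)
    · exact hψ
  choose ψ hψ using hext
  let y : AlgebraicClosure k → Fin (N + 1) → AlgebraicClosure k :=
    fun ξ i => ψ ξ (Ideal.Quotient.mk I (MvPolynomial.X i))
  have hψy : ∀ ξ (F : MvPolynomial (Fin (N + 1)) k), ψ ξ (Ideal.Quotient.mk I F) =
      MvPolynomial.aeval (y ξ) F := by
    intro ξ F
    have h3 : (ψ ξ).comp (Ideal.Quotient.mkₐ k I) = MvPolynomial.aeval (y ξ) :=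
      MvPolynomial.algHom_ext fun i => by simp [y]
    exact DFunLike.congr_fun h3 F
  have hyj : ∀ ξ, y ξ j0 = 1 := by
    intro ξ
    have h3 : (Ideal.Quotient.mk I (MvPolynomial.X j0 - 1) : MvPolynomial (Fin (N + 1)) k ⧸ I) = 0 :=
      Ideal.Quotient.eq_zero_iff_mem.2 (Ideal.subset_span (Or.inr rfl))
    have h4 := hψy ξ (MvPolynomial.X j0 - 1)
    rw [h3, map_zero, map_sub, MvPolynomial.aeval_X, map_one] at h4
    linear_combination -h4
  have hne : ∀ ξ, y ξ ≠ 0 := fun ξ h => one_ne_zero ((hyj ξ).symm.trans (congrFun h j0))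
  have hφg : ∀ ξ (c : MvPolynomial (Fin s) k), ψ ξ (g c) = φ ξ c := fun ξ c =>
    RingHom.congr_fun (hψ ξ) c
  have hroot : ∀ ξ i, Polynomial.eval₂ (φ ξ).toRingHom (y ξ i) (p i) = 0 := by
    intro ξ i
    have := Polynomial.hom_eval₂ (p i) g.toRingHom (ψ ξ).toRingHom
      (Ideal.Quotient.mk I (MvPolynomial.X i))
    rw [hp0 i, map_zero, hψ ξ] at this
    exact this.symm
  -- bounds
  have hbdd : ∀ i, Bdd (fun ξ => y ξ i) := fun i =>
    Bdd.root (fun ξ => (φ ξ).toRingHom)
      (fun c => Bdd.poly (fun ξ _ => ξ) (fun _ => Bdd.ident) c) (p i) (hpm i) _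
      (fun ξ => hroot ξ i)
  obtain ⟨M, C, D, hM, hC, hbd⟩ := Bdd.uniform
    (c := fun i ξ => if h : i < N + 1 then y ξ ⟨i, h⟩ else 0) (fun i => by
      by_cases h : i < N + 1
      · simpa [h] using hbdd ⟨i, h⟩
      · simpa [h] using Bdd.zero (Ω := AlgebraicClosure k)) (N + 1)
  have hbd' : ∀ i, BddW (fun ξ => y ξ i) M C D := by
    intro i
    have := hbd i i.2
    simp only [i.2, dif_pos] at this
    exact this
  have hk : 0 < finrank ℚ k := finrank_pos
  refine ⟨(∏ i, (p i).natDegree) + 1, finrank ℚ k * Real.log (M * C), finrank ℚ k * (D + 1),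
    fun ξ => Projectivization.mk _ (y ξ) (hne ξ), Nat.le_add_left _ _, by positivity, ?_, ?_⟩
  · -- injectivity
    intro ξ hξ ξ' hξ' hff
    simp only at hff
    rw [Projectivization.mk_eq_mk_iff] at hff
    obtain ⟨a, ha⟩ := hff
    have ha1 : (a : AlgebraicClosure k) = 1 := by
      have := congrFun ha j0
      rw [Pi.smul_apply, Units.smul_def, smul_eq_mul, hyj, hyj, mul_one] at this
      exact this
    have hyy : y ξ = y ξ' := by
      rw [← ha]
      ext i
      rw [Pi.smul_apply, Units.smul_def, smul_eq_mul, ha1, one_mul]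
    have hψψ : ∀ a, ψ ξ a = ψ ξ' a := by
      intro a
      obtain ⟨F, rfl⟩ := Ideal.Quotient.mk_surjective a
      rw [hψy, hψy, hyy]
    have h5 := hψψ (g (MvPolynomial.X ⟨0, hs⟩))
    rw [hφg, hφg] at h5
    simpa [φ] using h5
  · intro ξ hξ
    refine ⟨?_, ?_, ?_⟩
    · -- membership
      intro F hF
      obtain ⟨e, he⟩ := hS F hF
      obtain ⟨a, ha⟩ := Projectivization.exists_smul_eq_mk_rep (AlgebraicClosure k) (y ξ) (hne ξ)
      rw [← ha, Units.smul_def, aeval_smul_homog F he, ← hψy]
      have h3 : (Ideal.Quotient.mk I F : MvPolynomial (Fin (N + 1)) k ⧸ I) = 0 :=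
        Ideal.Quotient.eq_zero_iff_mem.2 (Ideal.subset_span (Or.inl hF))
      rw [h3, map_zero, mul_zero]
    · -- degree
      refine (deg_le ξ (y ξ) (hne ξ) (fun i => (p i).natDegree) fun i => ?_).trans
        (Nat.mul_le_mul (Nat.le_succ _) le_rfl)
      let φ' : MvPolynomial (Fin s) k →ₐ[k] IntermediateField.adjoin k {ξ} :=
        MvPolynomial.aeval (fun _ => ⟨ξ, IntermediateField.mem_adjoin_simple_self k ξ⟩)
      refine ⟨(p i).map φ'.toRingHom, (hpm i).map _, (hpm i).natDegree_map _, ?_⟩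
      rw [Polynomial.aeval_def, Polynomial.eval₂_map]
      have h3 : (algebraMap (IntermediateField.adjoin k {ξ}) (AlgebraicClosure k)).comp
          φ'.toRingHom = (φ ξ).toRingHom := by
        have h4 : (IntermediateField.val (IntermediateField.adjoin k {ξ})).comp φ' = φ ξ :=
          MvPolynomial.algHom_ext fun i => by simp [φ, φ']
        rw [← h4]; rfl
      rw [h3]
      exact hroot ξ i
    · -- height
      intro R hR hσ
      have hM0 : (M : AlgebraicClosure k) ≠ 0 := by exact_mod_cast hM.ne'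
      have hxne : (M : AlgebraicClosure k) • y ξ ≠ 0 := smul_ne_zero hM0 (hne ξ)
      have hmk : Projectivization.mk (AlgebraicClosure k) (y ξ) (hne ξ) =
          Projectivization.mk (AlgebraicClosure k) ((M : AlgebraicClosure k) • y ξ) hxne := by
        rw [Projectivization.mk_eq_mk_iff']
        refine ⟨(M : AlgebraicClosure k)⁻¹, ?_⟩
        rw [smul_smul, inv_mul_cancel₀ hM0, one_smul]
      have hM1 : (1 : ℝ) ≤ M := by exact_mod_cast hM
      have hRD : (1 : ℝ) ≤ R ^ D := one_le_pow₀ hR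
      have hMC : (1 : ℝ) ≤ M * C := by nlinarith
      have hR' : (1 : ℝ) ≤ M * C * R ^ D := by nlinarith
      have key := h1 k N ((M : AlgebraicClosure k) • y ξ) hxne j0 (M : k)
        (by rw [Pi.smul_apply, smul_eq_mul, hyj, mul_one, map_natCast])
        (by exact_mod_cast hM.ne')
        (fun i => ((hbd' i) ξ hξ).1) (M * C * R ^ D) hR'
        (fun σ i => by
          rw [Pi.smul_apply, smul_eq_mul, map_mul, norm_mul, map_natCast, Complex.norm_natCast,
            mul_assoc]
          exact mul_le_mul_of_nonneg_left (((hbd' i) ξ hξ).2 σ R hR (hσ σ)) (Nat.cast_nonneg _))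
      simp only
      rw [hmk]
      refine key.trans ?_
      rw [Real.log_mul (by positivity) (by positivity), Real.log_pow]
      have hlog : 0 ≤ Real.log R := Real.log_nonneg hR
      have : (finrank ℚ k : ℝ) * (Real.log (M * C) + D * Real.log R) ≤
        finrank ℚ k * Real.log (M * C) + finrank ℚ k * (D + 1) * Real.log R := by
        have : (0 : ℝ) ≤ finrank ℚ k := Nat.cast_nonneg _
        nlinarith [mul_nonneg this hlog]
      exact this

end Pool.Agent.W345.VOJ
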